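import Mathlib
import Pool.Agent.Y350.FC.SP
import Pool.Agent.Y248.FD.Stm
set_option autoImplicit false

/-! # Project FD: splitting the kernel at a scale, general multipliers

Adapted from `Pool.Agent.Y350.FC.SP`. -/

namespace Pool.Agent.Y949.FD

open MeasureTheory Set Metric Complex Filter
open scoped ENNReal RealInnerProductSpace Topology FourierTransform ComplexConjugate
open Pool.Agent.H789R2.FR (E sg T)
open Pool.Agent.Y248.BA (four_eq four_bdd four_cont)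
open Pool.Agent.Y248.FB Pool.Agent.Y248.FC Pool.Agent.Y248.FD Pool.Agent.Y350.FC

/-- the energy, splitting the kernel at scale `l`, for a real multiplier `p` supported in a shell -/
theorem sp_gen {n : ℕ} (hn : 2 ≤ n) : ∃ CS : ℝ, 0 < CS ∧ ∀ (μ : Measure (E n)),
    (∀ ρ : ℝ, μ (closedBall 0 ρ) < ∞) → ∀ A : ℝ, 4 ≤ A → ∀ l : ℝ, 3 ≤ l → ∀ (p : E n → ℂ) (B CK : ℝ),
    0 < B → 0 < CK → (∀ ξ, p ξ * p ξ = ((‖p ξ‖ ^ 2 : ℝ) : ℂ)) → Integrable (fun ξ => p ξ * p ξ) →
    (∀ ξ, ‖p ξ‖ ≤ B) → (∀ ξ, p ξ ≠ 0 → 1 - 2 / A ≤ ‖ξ‖ ∧ ‖ξ‖ ≤ 1) →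
    (∀ w, ‖𝓕 (fun ξ => p ξ * p ξ) w‖ ≤ CK / A * (1 + ‖w‖) ^ (-kap n)) →
    ∀ (S : Set (E n)), MeasurableSet S → (∀ ζ ξ, p ζ ≠ 0 → ‖ξ - ζ‖ ≤ 1 / (10 * l) → ξ ∈ S) →
    ∀ (g : E n → ℂ), BB g → ∀ G : ℝ≥0∞, ∫⁻ ξ in S, ‖Fm g μ ξ‖ₑ ^ (2 : ℝ) ≤ G →
    En p g μ ≤ ENNReal.ofReal (CK * 2 ^ n / A * l ^ (-kap n)) * (∫⁻ x, ‖g x‖ₑ ∂μ) ^ (2 : ℝ) +
      ENNReal.ofReal (2 ^ n * (CS * B ^ 2 * (10 * n) * l / A)) * G := by
  obtain ⟨CS, hCS, hsh⟩ := cv_shell hn
  have hn0 : (0 : ℝ) < n := by exact_mod_cast (by omega : 0 < n)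
  have hn2 : (2 : ℝ) ≤ n := by exact_mod_cast hn
  refine ⟨CS, hCS, fun μ hμ A hA l hl p B CK hB hCK hpr hqi hpB hps hker S hSm hS g hg G hG => ?_⟩
  obtain ⟨Ca, hCa⟩ : ∃ Ca : ℝ, Ca = CK * 2 ^ n := ⟨_, rfl⟩
  have hCa0 : 0 < Ca := by rw [hCa]; positivity
  have hA0 : 0 < A := by linarith
  have hl0 : 0 < l := by linarith
  have hg' := hg
  obtain ⟨hgm, ⟨M, hM⟩, ρ, hρ⟩ := hg'
  set ν : Measure (E n) := μ.restrict (closedBall 0 ρ) with hν
  have hνf : IsFiniteMeasure ν :=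
    ⟨by rw [hν, Measure.restrict_apply_univ]; exact hμ ρ⟩
  have hFm : ∀ ξ, Fm g μ ξ = Fm g ν ξ := by
    intro ξ
    unfold Fm
    exact (setIntegral_eq_integral_of_forall_compl_eq_zero fun x hx => by
      rw [hρ x hx, zero_mul]).symm
  have hi1 : ∫⁻ x, ‖g x‖ₑ ∂μ = ∫⁻ x, ‖g x‖ₑ ∂ν := by
    rw [hν, ← lintegral_indicator isClosed_closedBall.measurableSet]
    refine lintegral_congr fun x => ?_
    by_cases hx : x ∈ closedBall (0 : E n) ρ
    · rw [indicator_of_mem hx]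
    · rw [indicator_of_notMem hx, hρ x hx, enorm_zero]
  have hFmeas : Measurable (Fm g ν) := by
    have h2 : Measurable fun z : E n × E n => g z.2 *
        cexp (((2 * Real.pi * ⟪z.2, z.1⟫ : ℝ) : ℂ) * I) := by
      have h1 : Continuous fun z : E n × E n =>
          cexp (((2 * Real.pi * ⟪z.2, z.1⟫ : ℝ) : ℂ) * I) := by
        fun_prop
      exact (hgm.comp measurable_snd).mul h1.measurable
    exact (h2.stronglyMeasurable.integral_prod_right' (ν := ν)).measurable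
  set q : E n → ℂ := fun ξ => p ξ * p ξ with hq
  set r : ℝ := 1 / (10 * n * l) with hr
  have hr0 : 0 < r := by positivity
  -- the energies of the averages
  set J : ℕ → ℂ := fun i => ∫ ξ, Qi r q i ξ * (Fm g ν ξ * conj (Fm g ν ξ)) with hJ
  set P : ℂ := ∫ z : E n × E n, g z.1 * conj (g z.2) *
    ((1 - 𝓕 (kb r) (z.2 - z.1)) ^ n * 𝓕 q (z.2 - z.1)) ∂(ν.prod ν) with hP
  have hsum : ∑ i ∈ Finset.range (n + 1), ((-1) ^ i * (n.choose i : ℂ)) * J i = P := by
    have e1 : ∀ i, ((-1) ^ i * (n.choose i : ℂ)) * J i = ∫ z : E n × E n,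
        ((-1) ^ i * (n.choose i : ℂ)) * (g z.1 * conj (g z.2) *
          (𝓕 (kb r) (z.2 - z.1) ^ i * 𝓕 q (z.2 - z.1))) ∂(ν.prod ν) := by
      intro i
      rw [integral_const_mul, hJ]
      simp only
      rw [en_id ν (Qi_int r hqi i) hgm hM]
      simp only [Qi_four r hqi i]
    have hint : ∀ i ∈ Finset.range (n + 1), Integrable (fun z : E n × E n =>
        ((-1) ^ i * (n.choose i : ℂ)) * (g z.1 * conj (g z.2) *
          (𝓕 (kb r) (z.2 - z.1) ^ i * 𝓕 q (z.2 - z.1)))) (ν.prod ν) := by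
      intro i _
      refine Integrable.const_mul ?_ _
      have hc : Continuous fun z : E n × E n => 𝓕 (kb r) (z.2 - z.1) ^ i * 𝓕 q (z.2 - z.1) :=
        ((four_cont (kb_int r)).comp (continuous_snd.sub continuous_fst)).pow i |>.mul
          ((four_cont hqi).comp (continuous_snd.sub continuous_fst))
      have hm : Measurable fun z : E n × E n => g z.1 * conj (g z.2) :=
        (hgm.comp measurable_fst).mul (Complex.continuous_conj.measurable.comp
          (hgm.comp measurable_snd))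
      refine Integrable.of_bound (C := |M| * |M| * ((∫ x, ‖kb (n := n) r x‖) ^ i * ∫ x, ‖q x‖))
        (hm.mul hc.measurable).aestronglyMeasurable (Eventually.of_forall fun z => ?_)
      rw [norm_mul, norm_mul, norm_mul, norm_pow, RCLike.norm_conj]
      have h1 : ∀ x, ‖g x‖ ≤ |M| := fun x => (hM x).trans (le_abs_self M)
      have h2 : 0 ≤ ∫ x, ‖q x‖ := integral_nonneg fun x => norm_nonneg _
      have h3 : 0 ≤ ∫ x, ‖kb (n := n) r x‖ := integral_nonneg fun x => norm_nonneg _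
      have h4 := four_bdd (kb (n := n) r) (z.2 - z.1)
      have h5 := four_bdd q (z.2 - z.1)
      exact mul_le_mul (mul_le_mul (h1 _) (h1 _) (norm_nonneg _) (abs_nonneg _))
        (mul_le_mul (pow_le_pow_left₀ (norm_nonneg _) h4 i) h5 (norm_nonneg _) (by positivity))
        (by positivity) (by positivity)
    rw [Finset.sum_congr rfl fun i _ => e1 i, ← integral_finsetSum _ hint, hP]
    refine integral_congr_ae (Eventually.of_forall fun z => ?_)
    simp only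
    have e2 : (1 - 𝓕 (kb r) (z.2 - z.1)) ^ n = ∑ i ∈ Finset.range (n + 1),
        ((-1) ^ i * (n.choose i : ℂ)) * 𝓕 (kb r) (z.2 - z.1) ^ i := by
      rw [sub_eq_neg_add, add_pow]
      refine Finset.sum_congr rfl fun i _ => ?_
      rw [one_pow, mul_one, neg_pow]
      ring
    rw [e2, Finset.sum_mul, Finset.mul_sum]
    exact Finset.sum_congr rfl fun i _ => by ring
  -- the terms with averages
  have hBq : ∀ ξ, ‖q ξ‖ ≤ B ^ 2 := by
    intro ξ
    rw [hq]
    simp only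
    rw [norm_mul, sq]
    exact mul_le_mul (hpB ξ) (hpB ξ) (norm_nonneg _) hB.le
  have hqs : ∀ ξ, q ξ ≠ 0 → p ξ ≠ 0 := fun ξ h h0 => h (by rw [hq]; simp only; rw [h0, zero_mul])
  have hM1 : ∀ i ξ, ‖Qi r q (i + 1) ξ‖ ≤ CS * B ^ 2 / (A * r) := fun i ξ =>
    Qi_bdd hr0 (fun ζ => hsh A hA r hr0 q (B ^ 2) (by positivity) hBq
      (fun ξ h => hps ξ (hqs ξ h)) ζ) i ξ
  have hterm : ∀ i, i < n → ‖J (i + 1)‖ₑ ≤ ENNReal.ofReal (CS * B ^ 2 / (A * r)) *
      G := by
    intro i hi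
    calc ‖J (i + 1)‖ₑ ≤ ∫⁻ ξ, ‖Qi r q (i + 1) ξ * (Fm g ν ξ * conj (Fm g ν ξ))‖ₑ :=
          enorm_integral_le_lintegral_enorm _
      _ ≤ ∫⁻ ξ, S.indicator (fun ξ => ENNReal.ofReal (CS * B ^ 2 / (A * r)) *
            ‖Fm g μ ξ‖ₑ ^ (2 : ℝ)) ξ := by
          refine lintegral_mono fun ξ => ?_
          by_cases h0 : Qi r q (i + 1) ξ = 0
          · rw [h0, zero_mul, enorm_zero]; exact zero_le
          · obtain ⟨ζ, hζ, hξζ⟩ := Qi_supp r (i + 1) ξ h0
            have hir : ((i + 1 : ℕ) : ℝ) * r ≤ 1 / (10 * l) := by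
              have hi' : ((i + 1 : ℕ) : ℝ) ≤ n := by exact_mod_cast hi
              calc ((i + 1 : ℕ) : ℝ) * r ≤ n * r := by gcongr
                _ = 1 / (10 * l) := by rw [hr]; field_simp
            have h4 : ‖ξ - ζ‖ ≤ 1 / (10 * l) := hξζ.trans hir
            have hξS : ξ ∈ S := hS ζ ξ (hqs ζ hζ) h4
            rw [indicator_of_mem hξS, enorm_mul, hFm ξ]
            refine mul_le_mul' ?_ (le_of_eq ?_)
            · rw [← ofReal_norm]
              exact ENNReal.ofReal_le_ofReal (hM1 i ξ)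
            · rw [← ofReal_norm, ← ofReal_norm, norm_mul, RCLike.norm_conj,
                ENNReal.ofReal_rpow_of_nonneg (norm_nonneg _) (by norm_num)]
              congr 1
              rw [show (2 : ℝ) = ((2 : ℕ) : ℝ) by norm_num, Real.rpow_natCast, sq]
      _ = ENNReal.ofReal (CS * B ^ 2 / (A * r)) * ∫⁻ ξ in S, ‖Fm g μ ξ‖ₑ ^ (2 : ℝ) := by
          rw [lintegral_indicator hSm, lintegral_const_mul' _ _ ENNReal.ofReal_ne_top]
      _ ≤ _ := mul_le_mul' le_rfl hG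
  -- the remainder
  have hPb : ‖P‖ₑ ≤ ENNReal.ofReal (Ca / A * l ^ (-kap n)) * (∫⁻ x, ‖g x‖ₑ ∂μ) ^ (2 : ℝ) := by
    rw [hP]
    refine (enorm_integral_le_lintegral_enorm _).trans ?_
    have h1 : ∀ z : E n × E n, ‖g z.1 * conj (g z.2) *
        ((1 - 𝓕 (kb r) (z.2 - z.1)) ^ n * 𝓕 q (z.2 - z.1))‖ₑ ≤
        ENNReal.ofReal (Ca / A * l ^ (-kap n)) * (‖g z.1‖ₑ * ‖g z.2‖ₑ) := by
      intro z
      have h2 : ‖conj (g z.2)‖ₑ = ‖g z.2‖ₑ := by
        rw [← ofReal_norm, ← ofReal_norm, RCLike.norm_conj]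
      rw [enorm_mul, enorm_mul, h2, mul_comm]
      refine mul_le_mul' ?_ le_rfl
      rw [← ofReal_norm]
      refine ENNReal.ofReal_le_ofReal ?_
      rw [norm_mul, norm_pow]
      obtain ⟨w, hw⟩ : ∃ w, w = z.2 - z.1 := ⟨_, rfl⟩
      rw [← hw]
      have h3 := kb_four (n := n) hr0 w
      have h4 := hker w
      have h5 : 2 * Real.pi * r * ‖w‖ ≤ ‖w‖ / l := by
        rw [hr]
        have hpi := Real.pi_lt_four
        have h6 : 2 * Real.pi * (1 / (10 * n * l)) ≤ 1 / l := by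
          rw [mul_one_div, div_le_div_iff₀ (by positivity) hl0]
          nlinarith
        calc 2 * Real.pi * (1 / (10 * n * l)) * ‖w‖ ≤ 1 / l * ‖w‖ := by gcongr
          _ = ‖w‖ / l := by ring
      have h6 : ‖1 - 𝓕 (kb (n := n) r) w‖ ≤ min 2 (‖w‖ / l) :=
        h3.trans (min_le_min le_rfl h5)
      have h7 := rem_ineq hn (by linarith : 1 ≤ l) ‖w‖ (norm_nonneg w)
      have hmin0 : 0 ≤ min 2 (‖w‖ / l) := le_min (by norm_num) (by positivity)
      calc ‖1 - 𝓕 (kb (n := n) r) w‖ ^ n * ‖𝓕 q w‖ ≤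
          (min 2 (‖w‖ / l)) ^ n * (CK / A * (1 + ‖w‖) ^ (-kap n)) := by
            refine mul_le_mul (pow_le_pow_left₀ (norm_nonneg _) h6 n) h4 (norm_nonneg _)
              (by positivity)
        _ = CK / A * ((1 + ‖w‖) ^ (-kap n) * (min 2 (‖w‖ / l)) ^ n) := by ring
        _ ≤ CK / A * (2 ^ n * l ^ (-kap n)) := by gcongr
        _ = Ca / A * l ^ (-kap n) := by rw [hCa]; ring
    refine (lintegral_mono h1).trans (le_of_eq ?_)
    rw [lintegral_const_mul' _ _ ENNReal.ofReal_ne_top,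
      lintegral_prod_mul hgm.enorm.aemeasurable hgm.enorm.aemeasurable, hi1]
    congr 1
    rw [show (2 : ℝ) = ((2 : ℕ) : ℝ) by norm_num, ENNReal.rpow_natCast, sq]
  -- the energy
  have hE : En p g μ = ‖J 0‖ₑ := by
    unfold Pool.Agent.Y248.FD.En
    have hqr : ∀ ξ, Qi r q 0 ξ * (Fm g ν ξ * conj (Fm g ν ξ)) =
        ((‖p ξ * Fm g ν ξ‖ ^ 2 : ℝ) : ℂ) := by
      intro ξ
      change p ξ * p ξ * (Fm g ν ξ * conj (Fm g ν ξ)) = _
      rw [Complex.mul_conj, Complex.normSq_eq_norm_sq, norm_mul, mul_pow, Complex.ofReal_mul, hpr ξ]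
    have hint0 : Integrable (fun ξ => Qi r q 0 ξ * (Fm g ν ξ * conj (Fm g ν ξ))) := by
      refine (Qi_int r hqi 0).mul_bdd (c := (∫⁻ x, ‖g x‖ₑ ∂ν).toReal * (∫⁻ x, ‖g x‖ₑ ∂ν).toReal)
        ?_ (Eventually.of_forall fun ξ => ?_)
      · exact (hFmeas.mul (Complex.continuous_conj.measurable.comp hFmeas)).aestronglyMeasurable
      · rw [norm_mul, RCLike.norm_conj]
        have h1 : ‖Fm g ν ξ‖ ≤ (∫⁻ x, ‖g x‖ₑ ∂ν).toReal := by
          have h2 : ∫⁻ x, ‖g x‖ₑ ∂ν ≠ ∞ := by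
            rw [← hi1]
            have h1 : IntegrableOn g (closedBall 0 ρ) μ :=
              Measure.integrableOn_of_bounded (M := M) (hμ ρ).ne hgm.aestronglyMeasurable
                (Eventually.of_forall hM)
            exact (h1.integrable_of_forall_notMem_eq_zero fun x hx => hρ x hx).2.ne
          have h3 := fm_le ν g ξ
          rw [← ofReal_norm] at h3
          exact (ENNReal.ofReal_le_iff_le_toReal h2).1 h3
        exact mul_le_mul h1 h1 (norm_nonneg _) ENNReal.toReal_nonneg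
    have hint1 : Integrable (fun ξ => ‖p ξ * Fm g ν ξ‖ ^ 2) := by
      refine hint0.re.congr (Eventually.of_forall fun ξ => ?_)
      change (Qi r q 0 ξ * (Fm g ν ξ * conj (Fm g ν ξ))).re = _
      rw [hqr ξ, Complex.ofReal_re]
    rw [hJ]
    simp only
    simp only [hqr]
    rw [integral_complex_ofReal, ← ofReal_norm, Complex.norm_real, Real.norm_of_nonneg
      (integral_nonneg fun ξ => by positivity),
      ofReal_integral_eq_lintegral_ofReal hint1 (Eventually.of_forall fun x => by positivity)]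
    refine lintegral_congr fun ξ => ?_
    rw [hFm ξ, ← ofReal_norm, ENNReal.ofReal_rpow_of_nonneg (norm_nonneg _) (by norm_num)]
    congr 1
    exact_mod_cast Real.rpow_natCast _ 2
  rw [hE]
  -- solve for `J 0`
  have hJ0 : J 0 = P - ∑ i ∈ Finset.range n,
      ((-1) ^ (i + 1) * (n.choose (i + 1) : ℂ)) * J (i + 1) := by
    rw [Finset.sum_range_succ'] at hsum
    rw [← hsum, pow_zero, Nat.choose_zero_right, Nat.cast_one, one_mul, one_mul]
    ring
  set X : ℝ≥0∞ := ENNReal.ofReal (CS * B ^ 2 / (A * r)) *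
      G with hX
  have hsum2 : ‖∑ i ∈ Finset.range n, ((-1) ^ (i + 1) * (n.choose (i + 1) : ℂ)) * J (i + 1)‖ₑ ≤
      ENNReal.ofReal (2 ^ n) * X := by
    have h1 : ∀ (s : Finset ℕ) (a : ℕ → ℂ), ‖∑ i ∈ s, a i‖ₑ ≤ ∑ i ∈ s, ‖a i‖ₑ := by
      intro s a
      classical
      induction s using Finset.induction_on with
      | empty => simp
      | insert i s hi ih =>
        rw [Finset.sum_insert hi, Finset.sum_insert hi]
        exact (enorm_add_le _ _).trans (add_le_add le_rfl ih)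
    refine (h1 _ _).trans ?_
    have h2 : ∀ i ∈ Finset.range n, ‖((-1) ^ (i + 1) * (n.choose (i + 1) : ℂ)) * J (i + 1)‖ₑ ≤
        (n.choose (i + 1) : ℝ≥0∞) * X := by
      intro i hi
      rw [enorm_mul]
      refine mul_le_mul' (le_of_eq ?_) (hterm i (Finset.mem_range.1 hi))
      rw [← ofReal_norm, norm_mul, norm_pow, norm_neg, norm_one, one_pow, one_mul,
        Complex.norm_natCast, ENNReal.ofReal_natCast]
    refine (Finset.sum_le_sum h2).trans ?_
    rw [← Finset.sum_mul]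
    refine mul_le_mul' ?_ le_rfl
    rw [← Nat.cast_sum]
    have h3 : ∑ i ∈ Finset.range n, n.choose (i + 1) ≤ 2 ^ n := by
      rw [← Nat.sum_range_choose n, Finset.sum_range_succ']
      exact Nat.le_add_right _ _
    have h4 : ENNReal.ofReal ((2 : ℝ) ^ n) = ((2 ^ n : ℕ) : ℝ≥0∞) := by
      rw [← ENNReal.ofReal_natCast]
      push_cast
      rfl
    rw [h4]
    exact_mod_cast h3
  rw [hJ0]
  refine (enorm_sub_le).trans (add_le_add (hPb.trans ?_) (hsum2.trans ?_))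
  · rw [hCa]
  · rw [hX, ← mul_assoc, ← ENNReal.ofReal_mul (by positivity)]
    refine mul_le_mul' (ENNReal.ofReal_le_ofReal (le_of_eq ?_)) le_rfl
    rw [hr]
    field_simp

end Pool.Agent.Y949.FD
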