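import Mathlib
import Pool.Agent.Y949.FD.SpGen
import Pool.Agent.Y79.FC.CY
set_option autoImplicit false

/-! # Project FD: splitting at a scale, away from the equator -/

namespace Pool.Agent.Y949.FD

open MeasureTheory Set Metric Complex Filter
open scoped ENNReal RealInnerProductSpace Topology FourierTransform ComplexConjugate
open Pool.Agent.H789R2.FR (E sg T)
open Pool.Agent.H438R2.RZ (Bump)
open Pool.Agent.Y248.BA (mu Kr Tp mu_bdd mu_supp mu_loc mu_cont mu_int mu_comp four_eq four_bdd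
  four_cont)
open Pool.Agent.Y248.FB Pool.Agent.Y248.FC Pool.Agent.Y248.FD
open Pool.Agent.Y350.FC hiding En

theorem pr_cont (m : ℕ) {k : ℕ} : Continuous (pr m (k := k)) := by
  unfold pr
  exact continuous_snd.comp (ContinuousLinearEquiv.continuous _)

theorem pr_sub (m : ℕ) {k : ℕ} (x y : E (m + k)) : pr m (x - y) = pr m x - pr m y := by
  unfold pr
  rw [map_sub]
  rfl

theorem pr_le (m : ℕ) {k : ℕ} (x : E (m + k)) : ‖pr m x‖ ≤ ‖x‖ := by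
  have h := Pool.Agent.Y363.FC.es_le2 ((Pool.Agent.Y363.FC.ee m k) x).1 ((Pool.Agent.Y363.FC.ee m k) x).2
  rw [Pool.Agent.Y363.FC.es_fun] at h
  have h2 : (Pool.Agent.Y363.FC.ee m k).symm (((Pool.Agent.Y363.FC.ee m k) x).1, ((Pool.Agent.Y363.FC.ee m k) x).2) = x :=
    (Pool.Agent.Y363.FC.ee m k).symm_apply_apply x
  rw [h2] at h
  exact h

theorem cyl_fin (m : ℕ) {β K₀ : ℝ} (h0 : 0 ≤ β) (h1 : β ≤ 1) (hK : 0 ≤ K₀) {ν : Measure (E 1)} (hν : LD β K₀ ν)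
    (ρ : ℝ) : cyl m ν (closedBall 0 ρ) < ∞ := by
  obtain ⟨C, hC, h⟩ := (Pool.Agent.Y79.FC.t_cy m 1).1
  refine (measure_mono (closedBall_subset_closedBall (le_max_left ρ 1))).trans_lt ?_
  exact (h β K₀ h0 (by exact_mod_cast h1) hK ν hν 0 _ (le_max_right _ _)).trans_lt ENNReal.ofReal_lt_top

/-- the square of the cutoff -/
noncomputable def tt (θ : ℝ → ℝ) (s : ℝ) : ℝ := 2 * θ s - θ s ^ 2

theorem cut_tt {θ : ℝ → ℝ} (h : Cut θ) : Cut (tt θ) := by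
  refine ⟨?_, fun s hs => ?_⟩
  · unfold tt
    exact (contDiff_const.mul h.1).sub (h.1.pow 2)
  · unfold tt
    rw [h.2 s hs]
    norm_num

/-- the square of the bump -/
noncomputable def p2 (ψ : ℝ → ℝ) (s : ℝ) : ℝ := ψ s ^ 2

theorem bump_p2 {ψ : ℝ → ℝ} (h : Bump ψ) : Bump (p2 ψ) := by
  refine ⟨h.1.pow 2, fun v hv => h.2 v fun h0 => hv ?_⟩
  unfold p2
  rw [h0]
  norm_num

theorem pm_cont (m : ℕ) {ψ θ : ℝ → ℝ} (hψ : Bump ψ) (hθ : Cut θ) (A l : ℝ) : Continuous (pm m ψ θ A l) := by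
  unfold pm
  refine (mu_cont hψ A 1).mul ?_
  refine Complex.continuous_ofReal.comp (hθ.1.continuous.comp ?_)
  exact (((pr_cont m).norm).pow 2).div_const _

theorem hi_sq (m : ℕ) (ψ θ : ℝ → ℝ) (A : ℝ) (ξ : E (m + 1)) :
    hi m ψ θ A ξ * hi m ψ θ A ξ = mu ψ A 1 ξ * mu ψ A 1 ξ - pm m (p2 ψ) (tt θ) A (1 / 8) ξ := by
  have h1 : ‖pr m ξ‖ ^ 2 / (1 / 8) ^ 2 = 64 * ‖pr m ξ‖ ^ 2 := by ring
  unfold hi pm
  rw [h1]
  unfold mu p2 tt
  push_cast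
  ring

theorem hi_real (m : ℕ) (ψ θ : ℝ → ℝ) (A : ℝ) (ξ : E (m + 1)) :
    hi m ψ θ A ξ * hi m ψ θ A ξ = ((‖hi m ψ θ A ξ‖ ^ 2 : ℝ) : ℂ) := by
  unfold hi mu
  rw [← Complex.ofReal_mul, Complex.norm_real, Real.norm_eq_abs, sq_abs]
  push_cast
  ring

theorem t_sph (m : ℕ) (hm : 2 ≤ m) : S_KK (m + 1) → S_KH m → S_GA m → S_SPH m := by
  intro hKK hKH hGA ψ θ hψ hθ hθ1 β K₀ hβ0 hβ1 hK0
  obtain ⟨CK, hCK, hkk⟩ := hKK ψ hψ
  obtain ⟨CH, hCH, hkh⟩ := hKH (p2 ψ) (tt θ) (bump_p2 hψ) (cut_tt hθ)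
  obtain ⟨CG, hCG, hga⟩ := hGA
  obtain ⟨B, hB, hBb⟩ := mu_bdd hψ
  obtain ⟨D0, hD0⟩ := (isCompact_Icc (a := (0 : ℝ)) (b := 2)).exists_bound_of_continuousOn
    hθ.1.continuous.continuousOn
  have hD : ∀ s : ℝ, 0 ≤ s → |1 - θ s| ≤ 1 + |D0| := by
    intro s hs
    rcases le_total s 2 with h | h
    · have h1 := hD0 s ⟨hs, h⟩
      rw [Real.norm_eq_abs] at h1
      calc |1 - θ s| ≤ |1| + |θ s| := abs_sub _ _
        _ ≤ 1 + |D0| := by
          rw [abs_one]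
          linarith [le_abs_self D0]
    · rw [hθ.2 s h, sub_zero, abs_one]
      linarith [abs_nonneg D0]
  obtain ⟨CS, hCS, hsp⟩ := sp_gen (n := m + 1) (by omega)
  have hDp : 0 < 1 + |D0| := by positivity
  set BB' : ℝ := B * (1 + |D0|) with hBB
  have hBB0 : 0 < BB' := by positivity
  have hkap : kap (m + 1) = (m : ℝ) / 2 := by
    unfold kap
    push_cast
    ring
  obtain ⟨Ca, hCa⟩ : ∃ Ca : ℝ, Ca = (CK + CH) * 2 ^ (m + 1) := ⟨_, rfl⟩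
  obtain ⟨Cb, hCb⟩ : ∃ Cb : ℝ, Cb = 2 ^ (m + 1) * (CS * BB' ^ 2 * (10 * ((m + 1 : ℕ) : ℝ))) *
    (CG * K₀ * 3 ^ (1 - β)) := ⟨_, rfl⟩
  have hCa0 : 0 < Ca := by rw [hCa]; positivity
  have hCb0 : 0 ≤ Cb := by rw [hCb]; positivity
  refine ⟨Ca + Cb, by positivity, fun ν hν A hA r hr hrA g hg => ?_⟩
  have hA0 : 0 < A := by linarith
  have hr0 : 0 < r := by linarith
  have hpmi : Integrable (pm m (p2 ψ) (tt θ) A (1 / 8)) := by
    refine (pm_cont m (bump_p2 hψ) (cut_tt hθ) A (1 / 8)).integrable_of_hasCompactSupport ?_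
    exact (mu_comp (bump_p2 hψ) hA0 one_pos one_le_two).mul_right
  have hmui : Integrable (fun ξ : E (m + 1) => mu ψ A 1 ξ * mu ψ A 1 ξ) := qq_int hψ hA0
  have hfun : (fun ξ => hi m ψ θ A ξ * hi m ψ θ A ξ) =
      fun ξ => mu ψ A 1 ξ * mu ψ A 1 ξ - pm m (p2 ψ) (tt θ) A (1 / 8) ξ := by
    funext ξ
    exact hi_sq m ψ θ A ξ
  have hint : Integrable (fun ξ => hi m ψ θ A ξ * hi m ψ θ A ξ) := by
    rw [hfun]
    exact hmui.sub hpmi
  have hloc : ∀ ξ, hi m ψ θ A ξ ≠ 0 → (1 - 2 / A ≤ ‖ξ‖ ^ 2 ∧ 1 - 2 / A ≤ ‖ξ‖ ∧ ‖ξ‖ ≤ 1) ∧ 1 / 8 < ‖pr m ξ‖ := by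
    intro ξ h
    have h1 : mu ψ A 1 ξ ≠ 0 := fun h0 => h (by unfold hi; rw [h0, zero_mul])
    have h2 : qq ψ A ξ ≠ 0 := mul_ne_zero h1 h1
    refine ⟨qq_loc hψ hA h2, ?_⟩
    by_contra hc
    push Not at hc
    apply h
    unfold hi
    rw [hθ1 _ (by nlinarith [norm_nonneg (pr m ξ)]), sub_self, Complex.ofReal_zero, mul_zero]
  have hker : ∀ w, ‖𝓕 (fun ξ => hi m ψ θ A ξ * hi m ψ θ A ξ) w‖ ≤ (CK + CH) / A * (1 + ‖w‖) ^ (-kap (m + 1)) := by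
    intro w
    rw [hfun]
    have e1 : 𝓕 (fun ξ => mu ψ A 1 ξ * mu ψ A 1 ξ - pm m (p2 ψ) (tt θ) A (1 / 8) ξ) w =
        𝓕 (fun ξ : E (m + 1) => mu ψ A 1 ξ * mu ψ A 1 ξ) w - 𝓕 (pm m (p2 ψ) (tt θ) A (1 / 8)) w := by
      rw [four_eq, four_eq, four_eq]
      have hc : Continuous fun ξ : E (m + 1) => cexp (((-2 * Real.pi * ⟪ξ, w⟫ : ℝ) : ℂ) * I) := by
        fun_prop
      rw [← integral_sub]
      · congr 1
        funext ξ
        ring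
      · refine hmui.bdd_mul (c := 1) hc.aestronglyMeasurable (Eventually.of_forall fun z => ?_)
        rw [Complex.norm_exp_ofReal_mul_I]
      · refine hpmi.bdd_mul (c := 1) hc.aestronglyMeasurable (Eventually.of_forall fun z => ?_)
        rw [Complex.norm_exp_ofReal_mul_I]
    rw [e1]
    refine (norm_sub_le _ _).trans ?_
    have h4 := (hkk A 1 1 hA le_rfl one_le_two le_rfl one_le_two w).2
    have h5 := hkh A hA w
    rw [show (-(m : ℝ) / 2) = -kap (m + 1) by rw [hkap]; ring] at h5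
    calc _ ≤ CK / A * (1 + ‖w‖) ^ (-kap (m + 1)) + CH / A * (1 + ‖w‖) ^ (-kap (m + 1)) := add_le_add h4 h5
      _ = _ := by ring
  set S : Set (E (m + 1)) := {ξ : E (m + 1) | |‖ξ‖ ^ 2 - 1| ≤ 1 / (r / 3) ∧ 1 / 16 ≤ ‖pr m ξ‖} with hS
  have hSm : MeasurableSet S :=
    (measurableSet_le (((measurable_norm.pow_const 2).sub_const 1).abs) measurable_const).inter
      (measurableSet_le measurable_const (pr_cont m).norm.measurable)
  have hmem : ∀ ζ ξ, hi m ψ θ A ζ ≠ 0 → ‖ξ - ζ‖ ≤ 1 / (10 * r) → ξ ∈ S := by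
    intro ζ ξ hζ h4
    obtain ⟨⟨h1, -, h3⟩, hpr⟩ := hloc ζ hζ
    have h5 : |‖ξ‖ - ‖ζ‖| ≤ 1 / (10 * r) := (abs_norm_sub_norm_le ξ ζ).trans h4
    have h6 : 1 / (10 * r) ≤ 1 / 30 := by
      rw [div_le_div_iff₀ (by positivity) (by norm_num)]; linarith
    have h7 : 2 / A ≤ 2 / r := by gcongr
    refine ⟨?_, ?_⟩
    · have e1 : 1 / (r / 3) = 30 * (1 / (10 * r)) := by field_simp; norm_num
      have e2 : 2 / r = 20 * (1 / (10 * r)) := by field_simp; norm_num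
      rw [e2] at h7
      rw [e1]
      obtain ⟨d, hd⟩ : ∃ d : ℝ, d = 1 / (10 * r) := ⟨_, rfl⟩
      rw [← hd] at h5 h6 h7 ⊢
      have hd0 : 0 ≤ d := by rw [hd]; positivity
      have h8 := norm_nonneg ξ
      have h9 := norm_nonneg ζ
      obtain ⟨h10, h11⟩ := abs_le.1 h5
      have h12 : ‖ξ‖ ^ 2 - ‖ζ‖ ^ 2 = (‖ξ‖ - ‖ζ‖) * (‖ξ‖ + ‖ζ‖) := by ring
      have h13 : ‖ξ‖ + ‖ζ‖ ≤ 3 := by linarith
      rw [abs_le]
      constructor
      · nlinarith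
      · nlinarith
    · have h8 : ‖pr m ξ - pr m ζ‖ ≤ 1 / 30 := by
        rw [← pr_sub]
        exact (pr_le m _).trans (h4.trans h6)
      have h9 : ‖pr m ζ‖ - ‖pr m ξ‖ ≤ ‖pr m ξ - pr m ζ‖ := by
        rw [norm_sub_rev]
        exact norm_sub_norm_le _ _
      linarith
  have hmain := hsp (cyl m ν) (cyl_fin m hβ0 hβ1 hK0 hν) A hA r hr (hi m ψ θ A) BB' (CK + CH) hBB0 (by positivity)
    (hi_real m ψ θ A) hint ?_ (fun ξ h => (hloc ξ h).1.2) hker S hSm hmem g hg _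
    (hga β K₀ hβ0 hβ1 hK0 ν hν (r / 3) (by linarith) g hg).2
  · refine hmain.trans ?_
    refine add_le_add ?_ ?_
    · refine mul_le_mul' (ENNReal.ofReal_le_ofReal ?_) le_rfl
      rw [hkap, show -((m : ℝ) / 2) = -(m : ℝ) / 2 by ring, ← hCa]
      gcongr
      linarith
    · rw [← mul_assoc, ← ENNReal.ofReal_mul (by positivity)]
      refine mul_le_mul' (ENNReal.ofReal_le_ofReal ?_) le_rfl
      have e1 : (r / 3) ^ (-(1 - β)) = 3 ^ (1 - β) * r ^ (-(1 - β)) := by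
        rw [Real.div_rpow hr0.le (by norm_num), Real.rpow_neg (show (0:ℝ) ≤ 3 by norm_num),
          div_inv_eq_mul, mul_comm]
      have e2 : r ^ β = r * r ^ (-(1 - β)) := by
        conv_rhs => rw [← Real.rpow_one r, ← Real.rpow_mul hr0.le, one_mul, ← Real.rpow_add hr0]
        congr 1
        ring
      have e3 : 2 ^ (m + 1) * (CS * BB' ^ 2 * (10 * ((m + 1 : ℕ) : ℝ)) * r / A) * (CG * K₀ * (r / 3) ^ (-(1 - β))) =
          Cb / A * r ^ β := by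
        rw [e1, e2, hCb]
        ring
      rw [e3]
      gcongr
      linarith
  · intro ξ
    unfold hi
    rw [norm_mul]
    refine mul_le_mul (hBb _ A 1 ξ) ?_ (norm_nonneg _) hB.le
    rw [Complex.norm_real, Real.norm_eq_abs]
    exact hD _ (by positivity)

end Pool.Agent.Y949.FD
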